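import Mathlib
import Pool.Agent.H.MP_c5dce0_nt.A

set_option autoImplicit false

namespace Pool.Agent.Results.MP_c46995_nt.Shift

open PowerSeries Finset

noncomputable def geo (m : ℕ) : ℤ⟦X⟧ := PowerSeries.mk fun j => if m ∣ j then 1 else 0

noncomputable def S (t n : ℕ) : ℤ :=
  coeff n (geo 1 ^ t * ∏ i ∈ range (n + 1), geo (4 ^ i) ^ (3 * t))

theorem result (s m n : ℕ) (hs : 3 ≤ s) :
    emultiplicity 4 (S (2 ^ s * m + 2 ^ (s - 1)) n) = emultiplicity 4 (S (2 ^ (s - 1)) n) := by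
  obtain ⟨s, rfl⟩ := Nat.exists_eq_add_of_le' hs
  change emultiplicity 4 (Pool.Agent.H.MP_c5dce0_nt.S _ n) =
    emultiplicity 4 (Pool.Agent.H.MP_c5dce0_nt.S _ n)
  rcases Nat.eq_zero_or_pos n with rfl | hn
  · simp only [Pool.Agent.H.MP_c5dce0_nt.S_zero]
  have h1 := Pool.Agent.H.MP_c5dce0_nt.main s (2 * m + 1) n (odd_two_mul_add_one m) hn
  have h2 := Pool.Agent.H.MP_c5dce0_nt.main s 1 n odd_one hn
  rw [mul_one] at h2
  rw [show s + 3 - 1 = s + 2 from rfl,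
    show 2 ^ (s + 3) * m + 2 ^ (s + 2) = 2 ^ (s + 2) * (2 * m + 1) by ring,
    emultiplicity_eq_emultiplicity_iff]
  intro e
  rw [show (4 : ℤ) = 2 ^ 2 by norm_num, ← pow_mul]
  exact emultiplicity_eq_emultiplicity_iff.mp (h1.trans h2.symm) _

end Pool.Agent.Results.MP_c46995_nt.Shift
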